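import Pool.Agent.Lib.MP_0c623d_al.Coch
import Pool.Agent.Lib.MP_c0708e_al.TLin

/-! A linear group with a translate of finite exponent is virtually soluble. -/

set_option linter.style.haveILetI false
set_option linter.unusedSectionVars false

namespace Pool.Agent.Lib.MP_0c623d_al

open Matrix Module
open scoped commutatorElement

variable {Ω : Type} [Field Ω] {n : Type} [Fintype n] [DecidableEq n] {Γ : Type} [Group Γ]

lemma charpoly_step [IsAlgClosed Ω] {ρ : Γ →* Matrix n n Ω} (hI : (van (Set.range ρ)).IsPrime)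
    {c : Matrix n n Ω} {m : ℕ} (hc : ∀ g, (ρ g * c) ^ (m + 1) = 1) (τ : Ωˣ)
    (hτ : ∀ k : ℤ, τ ^ k = 1 → k = 0) {d x : Γ} (hd : d ∈ commutator Γ) (hx : x ∈ commutator Γ)
    (h : Γ) : (ρ (d * ⁅x, h⁆)).charpoly = (ρ d).charpoly := by
  let F : Matrix n n Ω → Matrix n n Ω := fun y => ρ d * (y * ρ h * iv c m y * ρ h⁻¹)
  have hF : F ∈ RM Ω n := RM_mul (const_mem _)
    (RM_mul (RM_mul (RM_mul id_mem (const_mem _)) (iv_mem c m)) (const_mem _))
  have hFρ : ∀ γ, F (ρ γ) = ρ (d * ⁅γ, h⁆) := fun γ => by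
    simp only [F, iv_rho hc, commutatorElement_def, map_mul]
  have hFD : ∀ y ∈ cl (Set.range ρ), F y ∈ cl (Set.range (ρ.comp (commutator Γ).subtype)) := by
    refine cl_map hF ?_
    rintro _ ⟨γ, rfl⟩
    rw [hFρ]
    exact subset_cl ⟨⟨_, mul_mem hd (Subgroup.commutator_mem_commutator trivial trivial)⟩, rfl⟩
  have hinj : Function.Injective fun k : ℕ => ((τ ^ (k + 1) : Ωˣ) : Ω) := by
    intro k l hkl
    have h1 : τ ^ (k + 1) = τ ^ (l + 1) := Units.ext hkl
    have := hτ ((k + 1 : ℕ) - (l + 1 : ℕ)) (by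
      rw [_root_.zpow_sub, zpow_natCast, zpow_natCast, h1, mul_inv_cancel])
    omega
  refine Polynomial.eq_of_infinite_eval_eq _ _ ((Set.infinite_range_of_injective hinj).mono ?_)
  rintro _ ⟨k, rfl⟩
  have h1 := const_on_comm ρ hI
    (det_mem (RM_sub (const_mem (((τ ^ (k + 1) : Ωˣ) : Ω) • 1)) hF)) (fun y hy h0 => by
      obtain ⟨N, hN, e⟩ := quasi_unip hI hc τ hτ (hFD y hy) h0
      have := hτ ((k + 1) * N : ℕ) (by
        rw [zpow_natCast, pow_mul]
        exact Units.ext e)
      exact mul_ne_zero (Nat.succ_ne_zero k) hN (by exact_mod_cast this)) (ρ x)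
    (subset_cl ⟨⟨x, hx⟩, rfl⟩)
  have h2 := hFρ 1
  rw [map_one, commutatorElement_one_left, mul_one] at h2
  simp only [hFρ, h2] at h1
  change Polynomial.eval _ _ = Polynomial.eval _ _
  rw [eval_charpoly, eval_charpoly, scalar_apply, ← smul_one_eq_diagonal]
  exact h1

lemma unip_of_prime [IsAlgClosed Ω] {ρ : Γ →* Matrix n n Ω} (hI : (van (Set.range ρ)).IsPrime)
    {c : Matrix n n Ω} {m : ℕ} (hc : ∀ g, (ρ g * c) ^ (m + 1) = 1) (τ : Ωˣ)
    (hτ : ∀ k : ℤ, τ ^ k = 1 → k = 0) {g : Γ} (hg : g ∈ ⁅commutator Γ, (⊤ : Subgroup Γ)⁆) :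
    IsNilpotent (ρ g - 1) := by
  have hle : ⁅commutator Γ, (⊤ : Subgroup Γ)⁆ ≤ commutator Γ :=
    Subgroup.commutator_mono le_top le_rfl
  have key : (ρ g).charpoly = (1 : Matrix n n Ω).charpoly := by
    induction hg using Subgroup.closure_induction_right with
    | one => rw [map_one]
    | mul_right d hd y hy ih =>
      obtain ⟨x, hx, h, -, rfl⟩ := hy
      rw [charpoly_step hI hc τ hτ (hle hd) hx, ih]
    | mul_inv_cancel d hd y hy ih =>
      obtain ⟨x, hx, h, -, rfl⟩ := hy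
      rw [← ih, ← charpoly_step hI hc τ hτ (d := d * ⁅x, h⁆⁻¹) (mul_mem (hle hd)
        (inv_mem (Subgroup.commutator_mem_commutator trivial trivial))) hx h, inv_mul_cancel_right]
  refine ⟨Fintype.card n, ?_⟩
  have := aeval_self_charpoly (ρ g)
  rw [key, charpoly_one] at this
  simpa using this

lemma deriv_succ_of_comm {E : Type} [Monoid E] (ρ : Γ →* E) {j : ℕ}
    (h : ∀ g ∈ derivedSeries Γ j, ∀ g' ∈ derivedSeries Γ j, ρ g * ρ g' = ρ g' * ρ g) :
    ∀ g ∈ derivedSeries Γ (j + 1), ρ g = 1 := by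
  have : derivedSeries Γ (j + 1) ≤ ρ.ker := by
    rw [derivedSeries_succ, Subgroup.commutator_le]
    intro g hg g' hg'
    rw [MonoidHom.mem_ker, commutatorElement_def, map_mul, map_mul, map_mul, h g hg g' hg',
      mul_assoc (ρ g'), ← map_mul, mul_inv_cancel, map_one, mul_one, ← map_mul, mul_inv_cancel,
      map_one]
  exact this

lemma deriv_le_map {N : Subgroup Γ} {j₀ : ℕ} (h : derivedSeries Γ j₀ ≤ N) (j : ℕ) :
    derivedSeries Γ (j₀ + j) ≤ (derivedSeries N j).map N.subtype := by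
  induction j with
  | zero => simpa [← MonoidHom.range_eq_map] using h
  | succ j ih =>
    rw [← add_assoc, derivedSeries_succ, derivedSeries_succ, Subgroup.map_commutator]
    exact Subgroup.commutator_mono ih ih

lemma unip_deriv [IsAlgClosed Ω] (d : ℕ) :
    ∀ (V : Type) [AddCommGroup V] [Module Ω V] [FiniteDimensional Ω V], finrank Ω V ≤ d →
      ∀ ρ : Representation Ω Γ V, (∀ g, IsNilpotent (ρ g - 1)) →
      ∀ g ∈ derivedSeries Γ d, ρ g = 1 := by
  induction d with
  | zero =>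
    intro V _ _ _ hd ρ _ l _
    haveI : Subsingleton V := finrank_zero_iff.1 (Nat.le_zero.1 hd)
    exact Subsingleton.elim _ _
  | succ d ih =>
    intro V _ _ _ hd ρ h
    rcases subsingleton_or_nontrivial V with hV | hV
    · exact fun _ _ => Subsingleton.elim _ _
    obtain ⟨x, hx0, hx⟩ := MP_c0708e_al.Tits.kolchin ρ h
    have hW : ∀ g, Submodule.span Ω {x} ≤ (Submodule.span Ω {x}).comap (ρ g) := fun g =>
      (Submodule.span_singleton_le_iff_mem _ _).2 (by
        rw [Submodule.mem_comap, hx g]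
        exact Submodule.mem_span_singleton_self _)
    let ρ' := ρ.quotient _ hW
    have h2 := ih _ (by
      have := Submodule.finrank_quotient_add_finrank (Submodule.span Ω {x})
      rw [finrank_span_singleton hx0] at this
      omega) ρ' (fun g => by
      obtain ⟨k, hk⟩ := h g
      refine ⟨k, LinearMap.ext fun y => ?_⟩
      obtain ⟨y, rfl⟩ := (Submodule.span Ω {x}).mkQ_surjective y
      have := LinearMap.congr_fun (End.commute_pow_left_of_commute (f := (Submodule.span Ω {x}).mkQ)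
        (g := ρ g - 1) (g₂ := ρ' g - 1) rfl k) y
      rw [hk] at this
      exact this)
    have h3 : ∀ g ∈ derivedSeries Γ d, ∀ y, ∃ a : Ω, ρ g y = y + a • x := by
      intro g hg y
      have h4 : (Submodule.span Ω {x}).mkQ (ρ g y) = (Submodule.span Ω {x}).mkQ y :=
        LinearMap.congr_fun (h2 g hg) ((Submodule.span Ω {x}).mkQ y)
      obtain ⟨a, ha⟩ := Submodule.mem_span_singleton.1 ((Submodule.Quotient.eq _).1 h4)
      exact ⟨a, by rw [ha, add_sub_cancel]⟩
    refine deriv_succ_of_comm ρ fun g hg g' hg' => LinearMap.ext fun y => ?_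
    obtain ⟨a, ha⟩ := h3 g hg y
    obtain ⟨a', ha'⟩ := h3 g' hg' y
    rw [End.mul_apply, End.mul_apply, ha, ha', map_add, map_add, map_smul, map_smul, ha, ha', hx,
      hx, add_right_comm]

theorem virt_alg [IsAlgClosed Ω] (ρ : Γ →* Matrix n n Ω) {c : Matrix n n Ω} {m : ℕ}
    (hc : ∀ g, (ρ g * c) ^ (m + 1) = 1) (τ : Ωˣ) (hτ : ∀ k : ℤ, τ ^ k = 1 → k = 0) :
    ∃ K : Subgroup Γ, K.FiniteIndex ∧ ∃ j, ∀ g ∈ derivedSeries K j, ρ g = 1 := by
  obtain ⟨K, hK, hI⟩ := exists_prime ρ
  refine ⟨K, hK, 2 + Fintype.card n, fun g hg => ?_⟩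
  obtain ⟨g, hg', rfl⟩ := deriv_le_map (N := ⁅commutator K, (⊤ : Subgroup K)⁆) (j₀ := 2)
    (Subgroup.commutator_mono le_rfl le_top) _ hg
  let T : Matrix n n Ω ≃ₐ[Ω] End Ω (n → Ω) := toLinAlgEquiv'
  apply T.injective
  rw [map_one]
  exact unip_deriv (Fintype.card n) (n → Ω) (by simp) ((T : Matrix n n Ω →* End Ω (n → Ω)).comp
    ((ρ.comp K.subtype).comp (Subgroup.subtype _))) (fun g => by
      simpa using (unip_of_prime hI (fun g => hc g) τ hτ g.2).map T) g hg'

/-- A linear group over a domain with a translate of finite exponent is virtually soluble. -/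
theorem virt_dom {A : Type} [CommRing A] [IsDomain A] (ρ : Γ →* Matrix n n A) {c : Matrix n n A}
    {m : ℕ} (hm : 0 < m) (hc : ∀ g, (ρ g * c) ^ m = 1) :
    ∃ K : Subgroup Γ, K.FiniteIndex ∧ ∃ j, ∀ g ∈ derivedSeries K j, ρ g = 1 := by
  obtain ⟨m, rfl⟩ := Nat.exists_eq_succ_of_ne_zero hm.ne'
  let L := AlgebraicClosure (FractionRing (Polynomial A))
  let f : Polynomial A →+* L := (algebraMap _ L).comp (algebraMap _ (FractionRing (Polynomial A)))
  have hf : Function.Injective f := (algebraMap (FractionRing (Polynomial A)) L).injective.comp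
    (IsFractionRing.injective (Polynomial A) _)
  have hX : f Polynomial.X ≠ 0 := (map_ne_zero_iff f hf).2 Polynomial.X_ne_zero
  obtain ⟨K, hK, j, hj⟩ := virt_alg ((f.comp Polynomial.C).mapMatrix.toMonoidHom.comp ρ)
    (c := (f.comp Polynomial.C).mapMatrix c) (m := m) (fun g => by
      have := congrArg (f.comp Polynomial.C).mapMatrix (hc g)
      rwa [map_pow, map_mul, map_one] at this) (Units.mk0 _ hX) (fun k hk => by
      have h1 : f (Polynomial.X ^ k.natAbs) = f 1 := by
        rw [map_pow, map_one]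
        exact congrArg Units.val (pow_natAbs_eq_one.2 hk)
      have h2 := congrArg Polynomial.natDegree (hf h1)
      simpa using h2)
  refine ⟨K, hK, j, fun g hg => ?_⟩
  apply Matrix.map_injective (hf.comp Polynomial.C_injective)
  exact (hj g hg).trans (map_one (f.comp Polynomial.C).mapMatrix).symm

end Pool.Agent.Lib.MP_0c623d_al
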