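import Pool.Agent.Lib.MP_e0e7d6_al.Main
import Pool.Agent.Lib.MP_e0e7d6_al.Reduce
import Pool.Agent.Lib.MP_0c623d_al.Main

/-! Infinite two-generator groups of large odd exponent, and the reduction from commutative rings
to domains. -/

set_option linter.style.haveILetI false

namespace Pool.Agent.Lib.MP_0c623d_al

open Pool.Agent.Lib.MP_e0e7d6_al
open scoped commutatorElement

theorem exists_burnside : ∃ M : ℕ, ∀ d : ℕ, Odd d → M ≤ d → ∃ (B : Type) (_ : Group B) (a b : B),
    Subgroup.closure {a, b} = ⊤ ∧ CSA B ∧ ¬ Commute a b ∧ Infinite B ∧ ∀ g : B, g ^ d = 1 := by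
  obtain ⟨δ, hδ, h0⟩ := exists_step
  obtain ⟨w, cw, hc, -, Wg⟩ := rigid_geom
  set l := 40 * δ + 1 + cw * (cA δ 3601 + δ) with hl
  obtain ⟨σ, n0, h1⟩ := h0 w cw Wg hc l (by omega)
  refine ⟨n0 + 1, fun d hd hn => ?_⟩
  obtain ⟨F, V, _, _, X, a, b, x, hcl, hab, da, db, hfree, hgood⟩ := exists_base l (by omega)
  have cm1 : 1 ≤ cm δ := by
    unfold cm
    exact Nat.succ_le_of_lt (by positivity)
  have Γ := hgood δ (cA δ 3601) (cm δ) d d hδ (by omega) cm1 hd hd
  let S0 : Stage F a b w ∅ δ (cA δ 3601) (cm δ) d d l :=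
    { G := F, V := V, X := X, x := x, π := MonoidHom.id F
      surj := Function.surjective_id
      good := Γ
      rigid := Wg.rigid_of_big hc Γ (fun S hd o => ⟨0, le_trans (by omega) (hfree _ (hd.2 0) o)⟩) ∅
      nc := hab
      da := da
      db := db }
  choose nx n1 n2 using h1 d d hn hn F a b ∅
  let St : ℕ → Stage F a b w ∅ δ (cA δ 3601) (cm δ) d d l := fun k => nx^[k] S0
  have e : ∀ k, St (k + 1) = nx (St k) := fun k => Function.iterate_succ_apply' _ _ _
  obtain ⟨H, _, ρ, Λ⟩ := exists_isLim (G := fun k => (St k).G) (fun k => (St k).π) fun k f hf => by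
    have : ∀ S', S' = nx (St k) → S'.π f = 1 := by
      rintro _ rfl
      exact n1 _ f hf
    exact this _ (e k)
  have hC := Λ.csa fun k => (St k).good.csa
  have hnc : ¬ Commute (ρ a) (ρ b) := fun c => by
    obtain ⟨k, hk⟩ := (Λ.comm_down c).exists
    exact (St k).nc hk
  refine ⟨H, inferInstance, ρ a, ρ b, ?_, hC, hnc, Infinite.of_injective _
    ((vl_inj hC (Λ.rigid (fun k => (St k).surj) fun k => (St k).rigid) hnc).comp num_injective),
    fun g => ?_⟩
  · rw [← Set.image_pair, ← MonoidHom.map_closure, hcl, Subgroup.map_top_of_surjective _ Λ.surj]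
  · obtain ⟨f, rfl⟩ := Λ.surj g
    have key : ∀ n k, (St k).dsp f ≤ n → ∃ k, (St k).π f ^ (d * d) = 1 := by
      intro n
      induction n using Nat.strong_induction_on with
      | _ n ih =>
      intro k hk
      by_cases hs : (St k).dsp f ≤ σ
      · have : ∀ S', S' = nx (St k) → S'.π f ^ (d * d) = 1 := by
          rintro _ rfl
          exact (n2 _ f).1 hs
        exact ⟨k + 1, this _ (e k)⟩
      · have := (n2 _ f).2 (not_le.1 hs)
        rw [← e] at this
        exact ih _ (by omega) (k + 1) le_rfl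
    obtain ⟨k, hk⟩ := key _ 0 le_rfl
    have h2 := ((St k).good.tors _ (isOfFinOrder_iff_pow_eq_one.2
      ⟨d * d, Nat.mul_pos (by omega) (by omega), hk⟩)).elim id id
    rw [← map_pow] at h2 ⊢
    exact Λ.one_up h2

variable {Γ B : Type} [Group Γ] [Group B] {π : Γ →* B}

lemma exists_comm (hπ : Function.Surjective π) (C : CSA B) {a b : B} (hab : ¬ Commute a b)
    {N N' : Subgroup Γ} [N.Normal] (h : ∃ g ∈ N, π g ≠ 1) (h' : ∃ g ∈ N', π g ≠ 1) :
    ∃ g ∈ N, ∃ g' ∈ N', π ⁅g, g'⁆ ≠ 1 := by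
  by_contra hcon
  push Not at hcon
  obtain ⟨g, hg, hg1⟩ := h
  obtain ⟨g', hg', hg1'⟩ := h'
  have h1 : ∀ x ∈ N, Commute (π g') (π x) := fun x hx => by
    have := hcon x hx g' hg'
    rw [map_commutatorElement, commutatorElement_eq_one_iff_commute] at this
    exact this.symm
  have h2 : ∀ y : B, Commute (π g) y := fun y => by
    obtain ⟨y, rfl⟩ := hπ y
    refine C.mal _ _ hg1 (C.trans _ _ _ hg1' (h1 g hg) ?_)
    rw [← map_inv, ← map_mul, ← map_mul]
    exact h1 _ (Subgroup.Normal.conj_mem inferInstance g hg y)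
  exact hab (C.trans _ _ _ hg1 (h2 a) (h2 b))

lemma exists_deriv (hπ : Function.Surjective π) (C : CSA B) {a b : B} (hab : ¬ Commute a b)
    [Infinite B] (K : Subgroup Γ) [K.FiniteIndex] (j : ℕ) :
    ∃ g ∈ derivedSeries K j, π g ≠ 1 := by
  have key : ∀ j, ∃ N : Subgroup Γ, N.Normal ∧ N ≤ (derivedSeries K j).map K.subtype ∧
      ∃ g ∈ N, π g ≠ 1 := by
    intro j
    induction j with
    | zero =>
      refine ⟨K.normalCore, inferInstance, by
        simpa [← MonoidHom.range_eq_map] using K.normalCore_le, ?_⟩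
      by_contra hcon
      push Not at hcon
      haveI : π.ker.FiniteIndex := Subgroup.finiteIndex_of_le (H := K.normalCore) hcon
      haveI := Finite.of_equiv _ (QuotientGroup.quotientKerEquivOfSurjective π hπ).toEquiv
      exact not_finite B
    | succ j ih =>
      obtain ⟨N, _, h1, h2⟩ := ih
      obtain ⟨g, hg, g', hg', h3⟩ := exists_comm hπ C hab h2 h2
      refine ⟨⁅N, N⁆, inferInstance, ?_, _, Subgroup.commutator_mem_commutator hg hg', h3⟩
      rw [derivedSeries_succ, Subgroup.map_commutator]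
      exact Subgroup.commutator_mono h1 h1
  obtain ⟨N, -, h1, g, hg, h2⟩ := key j
  obtain ⟨g, hg', rfl⟩ := h1 hg
  exact ⟨g, hg', h2⟩

theorem exists_ker (hπ : Function.Surjective π) (C : CSA B) {a b : B} (hab : ¬ Commute a b)
    [Infinite B] {n A : Type} [Fintype n] [DecidableEq n] [CommRing A] (ρ : Γ →* Matrix n n A)
    {c : Matrix n n A} {m : ℕ} (hm : 0 < m) (hc : ∀ g, (ρ g * c) ^ m = 1) :
    ∃ g, ρ g = 1 ∧ π g ≠ 1 := by
  by_contra hcon
  push Not at hcon
  let r : (I : Ideal A) → Γ →* Matrix n n (A ⧸ I) := fun I =>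
    (Ideal.Quotient.mk I).mapMatrix.toMonoidHom.comp ρ
  have hr : ∀ I g, r I g = 1 ↔ ∀ i j, (ρ g - 1) i j ∈ I := fun I g => by
    change (Ideal.Quotient.mk I).mapMatrix (ρ g) = 1 ↔ _
    rw [← map_one (Ideal.Quotient.mk I).mapMatrix, ← sub_eq_zero, ← map_sub, ← Matrix.ext_iff]
    exact forall₂_congr fun i j => Ideal.Quotient.eq_zero_iff_mem
  obtain ⟨P, -, hP, hmax⟩ := zorn_le_nonempty₀ {I : Ideal A | ∀ g, r I g = 1 → π g = 1}
    (fun s hs hch I hI => ⟨sSup s, fun g hg => by
      haveI : Nonempty s := ⟨⟨I, hI⟩⟩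
      have h1 : ∀ ij : n × n, ∃ J : s, (ρ g - 1) ij.1 ij.2 ∈ J.1 := fun ij => by
        obtain ⟨J, hJ, h⟩ := (Submodule.mem_sSup_of_directed ⟨I, hI⟩ hch.directedOn).1
          ((hr _ g).1 hg ij.1 ij.2)
        exact ⟨⟨J, hJ⟩, h⟩
      choose J hJ using h1
      obtain ⟨z, hz⟩ := hch.directedOn.directed_val.finite_le J
      exact hs z.2 g ((hr _ g).2 fun i j => hz (i, j) (hJ (i, j))), fun _ h => le_sSup h⟩)
    ⊥ (fun g hg => hcon g (sub_eq_zero.1 (Matrix.ext ((hr _ g).1 hg))))
  haveI : P.IsPrime := by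
    refine ⟨?_, fun {x y} hxy => ?_⟩
    · rintro rfl
      obtain ⟨g, rfl⟩ := hπ a
      exact hab (hP g ((hr _ g).2 fun _ _ => trivial) ▸ Commute.one_left b)
    by_contra hn
    push Not at hn
    have h1 : ∀ x ∉ P, ∃ g ∈ (r (P ⊔ Ideal.span {x})).ker, π g ≠ 1 := fun x hx => by
      by_contra h2
      push Not at h2
      exact hx (hmax h2 le_sup_left (Ideal.mem_sup_right (Ideal.mem_span_singleton_self x)))
    obtain ⟨g, hg, g', hg', h2⟩ := exists_comm hπ C hab (h1 x hn.1) (h1 y hn.2)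
    have hle : (P ⊔ Ideal.span {x}) * (P ⊔ Ideal.span {y}) ≤ P := by
      rw [Ideal.sup_mul, Ideal.mul_sup, Ideal.mul_sup, Ideal.span_singleton_mul_span_singleton]
      exact sup_le (sup_le Ideal.mul_le_left Ideal.mul_le_left)
        (sup_le Ideal.mul_le_right ((Ideal.span_singleton_le_iff_mem _).2 hxy))
    have h3 : r P g * r P g' = r P g' * r P g := by
      have e : ρ g * ρ g' - ρ g' * ρ g = (ρ g - 1) * (ρ g' - 1) - (ρ g' - 1) * (ρ g - 1) := by
        noncomm_ring
      change (Ideal.Quotient.mk P).mapMatrix _ * (Ideal.Quotient.mk P).mapMatrix _ =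
        (Ideal.Quotient.mk P).mapMatrix _ * (Ideal.Quotient.mk P).mapMatrix _
      rw [← map_mul (Ideal.Quotient.mk P).mapMatrix, ← map_mul (Ideal.Quotient.mk P).mapMatrix,
        ← sub_eq_zero, ← map_sub, e]
      refine Matrix.ext fun i j => Ideal.Quotient.eq_zero_iff_mem.2 (hle (sub_mem ?_ ?_))
      · rw [Matrix.mul_apply]
        exact sum_mem fun k _ => Ideal.mul_mem_mul ((hr _ g).1 hg i k) ((hr _ g').1 hg' k j)
      · rw [Matrix.mul_apply]
        exact sum_mem fun k _ => Ideal.mul_mem_mul_rev ((hr _ g).1 hg k j) ((hr _ g').1 hg' i k)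
    refine h2 (hP _ ?_)
    rw [commutatorElement_def, map_mul, map_mul, map_mul, h3, mul_assoc (r P g'), ← map_mul,
      mul_inv_cancel, map_one, mul_one, ← map_mul, mul_inv_cancel, map_one]
  obtain ⟨K, _, j, hj⟩ := virt_dom (r P) (c := (Ideal.Quotient.mk P).mapMatrix c) hm fun g => by
    have := congrArg (Ideal.Quotient.mk P).mapMatrix (hc g)
    rwa [map_pow, map_mul, map_one] at this
  obtain ⟨g, hg, h1⟩ := exists_deriv hπ C hab K j
  exact h1 (hP _ (hj g hg))

/-- Multiplying a basis element by an element of the subgroup generated by the other basis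
elements gives a primitive element. -/
lemma exists_basis {ι F : Type} [Group F] (b : FreeGroupBasis ι F) (i : ι) {h : F}
    (hh : h ∈ Subgroup.closure (b '' {j | j ≠ i})) : ∃ b' : FreeGroupBasis ι F, b' i = h * b i := by
  classical
  let α : F → F →* F := fun u => b.lift fun j => if j = i then u * b i else b j
  have h1 : ∀ u, α u (b i) = u * b i := fun u => by simp [α]
  have h2 : ∀ u j, j ≠ i → α u (b j) = b j := fun u j hj => by simp [α, hj]
  have h3 : ∀ u, α u h = h := fun u => by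
    refine MonoidHom.eqOn_closure (f := α u) (g := MonoidHom.id F) ?_ hh
    rintro _ ⟨j, hj, rfl⟩
    exact h2 u j hj
  refine ⟨b.map (MonoidHom.toMulEquiv (α h) (α h⁻¹) ?_ ?_), h1 h⟩
  · refine b.ext_hom _ _ fun j => ?_
    by_cases hj : j = i
    · simp [hj, h1, h3]
    · simp [h2 _ j hj]
  · refine b.ext_hom _ _ fun j => ?_
    by_cases hj : j = i
    · simp [hj, h1, h3]
    · simp [h2 _ j hj]

end Pool.Agent.Lib.MP_0c623d_al
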