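import Pool.Agent.Lib.MP_0c623d_al.Det

/-! A cocharacter in the closure of a group containing an element with an eigenvalue of infinite
order. -/

set_option linter.style.haveILetI false
set_option linter.unusedSectionVars false

namespace Pool.Agent.Lib.MP_0c623d_al

open Matrix Module

variable {Ω : Type} [Field Ω] {n : Type} [Fintype n] [DecidableEq n]

lemma gen_mul_aux {F : Type} [CommRing F] [Algebra Ω F] (σ : F →ₐ[Ω] F) (μ ν : Ω) (s : ℕ) :
    ∀ (k l : ℕ) (f g : F), k + l = s → ((σ.toLinearMap - μ • 1) ^ k) f = 0 →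
      ((σ.toLinearMap - ν • 1) ^ l) g = 0 → ((σ.toLinearMap - (μ * ν) • 1) ^ s) (f * g) = 0 := by
  induction s with
  | zero =>
    intro k l f g h hf _
    obtain rfl : k = 0 := by omega
    have : f = 0 := hf
    rw [this, zero_mul, map_zero]
  | succ s ih =>
    intro k l f g h hf hg
    rcases k with _ | k
    · have : f = 0 := hf
      rw [this, zero_mul, map_zero]
    rcases l with _ | l
    · have : g = 0 := hg
      rw [this, mul_zero, map_zero]
    have e : (σ.toLinearMap - (μ * ν) • 1 : End Ω F) (f * g) =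
        (σ.toLinearMap - μ • 1 : End Ω F) f * σ g + μ • (f * (σ.toLinearMap - ν • 1 : End Ω F) g) := by
      simp only [LinearMap.sub_apply, LinearMap.smul_apply, End.one_apply, AlgHom.toLinearMap_apply,
        map_mul]
      simp only [Algebra.smul_def, map_mul]
      ring
    have c : Commute ((σ.toLinearMap - ν • 1 : End Ω F) ^ (l + 1)) σ.toLinearMap :=
      ((Commute.refl _).sub_left ((Commute.one_left _).smul_left _)).pow_left _
    rw [pow_succ, End.mul_apply, e, map_add, map_smul, ih k (l + 1) _ _ (by omega) hf (by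
      have := LinearMap.congr_fun c.eq g
      rw [End.mul_apply, End.mul_apply, hg, map_zero] at this
      exact this), ih (k + 1) l _ _ (by omega) hf hg, smul_zero,
      add_zero]

lemma gen_mul {F : Type} [CommRing F] [Algebra Ω F] (σ : F →ₐ[Ω] F) {μ ν : Ω} {f g : F}
    (hf : f ∈ End.maxGenEigenspace σ.toLinearMap μ) (hg : g ∈ End.maxGenEigenspace σ.toLinearMap ν) :
    f * g ∈ End.maxGenEigenspace σ.toLinearMap (μ * ν) := by
  rw [End.mem_maxGenEigenspace] at *
  obtain ⟨k, hk⟩ := hf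
  obtain ⟨l, hl⟩ := hg
  exact ⟨k + l, gen_mul_aux σ μ ν _ k l f g rfl hk hl⟩

variable {Γ : Type} [Group Γ]

lemma cochar_mem (ρ : Γ →* Matrix n n Ω) {g : Matrix n n Ω} (hg : g ∈ cl (Set.range ρ))
    {P P' : Matrix n n Ω} (hP : P * P' = 1) (e : n → Ωˣ)
    (he : ∀ j, (fun i => P i j) ∈ End.maxGenEigenspace (toLin' g) (e j : Ω)) (χ : Ωˣ → ℚ)
    (hχ : ∀ u v, χ (u * v) = χ u + χ v) (h : n → ℤ) (hh : ∀ j, χ (e j) = h j) (v : Ωˣ) :
    P * diagonal (fun j => ((v ^ h j : Ωˣ) : Ω)) * P' ∈ cl (Set.range ρ) := by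
  intro f hf h0
  set t := P * diagonal (fun j => ((v ^ h j : Ωˣ) : Ω)) * P' with ht
  let σ : (cl (Set.range ρ) → Ω) →ₐ[Ω] (cl (Set.range ρ) → Ω) :=
    { toFun := fun f x => f ⟨x.1 * g, mul_mem_cl ρ x.2 hg⟩
      map_one' := rfl
      map_mul' := fun _ _ => rfl
      map_zero' := rfl
      map_add' := fun _ _ => rfl
      commutes' := fun _ => rfl }
  let r : (Matrix n n Ω → Ω) →ₗ[Ω] (cl (Set.range ρ) → Ω) := LinearMap.funLeft Ω Ω Subtype.val
  let ι := {p : Ωˣ × ℤ // χ p.1 = p.2}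
  let B : ι → Submodule Ω (Matrix n n Ω → Ω) := fun p =>
    (End.maxGenEigenspace σ.toLinearMap (p.1.1 : Ω)).comap r ⊓
      LinearMap.ker (LinearMap.proj t - ((v ^ p.1.2 : Ωˣ) : Ω) • LinearMap.proj 1)
  have mem : ∀ p f, f ∈ B p ↔ r f ∈ End.maxGenEigenspace σ.toLinearMap (p.1.1 : Ω) ∧
      f t = ((v ^ p.1.2 : Ωˣ) : Ω) * f 1 := fun p f => by
    simp [B, sub_eq_zero]
  have hmul : (⨆ p, B p) * (⨆ p, B p) ≤ ⨆ p, B p := by
    rw [Submodule.iSup_mul]
    refine iSup_le fun p => ?_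
    rw [Submodule.mul_iSup]
    refine iSup_le fun q => Submodule.mul_le.2 fun a ha b hb => ?_
    refine Submodule.mem_iSup_of_mem ⟨(p.1.1 * q.1.1, p.1.2 + q.1.2), by
      rw [hχ, p.2, q.2, Int.cast_add]⟩ ((mem _ _).2 ⟨?_, ?_⟩)
    · exact gen_mul σ ((mem _ _).1 ha).1 ((mem _ _).1 hb).1
    · rw [Pi.mul_apply, Pi.mul_apply, ((mem _ _).1 ha).2, ((mem _ _).1 hb).2, _root_.zpow_add,
        Units.val_mul]
      ring
  have hall : ∀ f ∈ Reg Ω n, f ∈ ⨆ p, B p := by
    intro f hf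
    induction hf using Algebra.adjoin_induction with
    | mem f hf =>
      obtain ⟨⟨i, k⟩, rfl⟩ := hf
      have e1 : (fun x : Matrix n n Ω => x i k) = ∑ j, P' j k • fun x : Matrix n n Ω => (x * P) i j := by
        funext x
        conv_lhs => rw [← Matrix.mul_one x, ← hP, ← Matrix.mul_assoc, Matrix.mul_apply]
        simp [mul_comm]
      change (fun x : Matrix n n Ω => x i k) ∈ _
      rw [e1]
      refine sum_mem fun j _ => Submodule.smul_mem _ _
        (Submodule.mem_iSup_of_mem ⟨(e j, h j), hh j⟩ ((mem _ _).2 ⟨?_, ?_⟩))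
      · let L : (n → Ω) →ₗ[Ω] (cl (Set.range ρ) → Ω) :=
          LinearMap.pi fun x => (LinearMap.proj i).comp (toLin' x.1)
        obtain ⟨s, hs⟩ := (End.mem_maxGenEigenspace _ _ _).1 (he j)
        refine (End.mem_maxGenEigenspace _ _ _).2 ⟨s, ?_⟩
        have h1 := End.commute_pow_left_of_commute (f := L) (g := toLin' g - (e j : Ω) • 1)
          (g₂ := σ.toLinearMap - (e j : Ω) • 1) (by
            refine LinearMap.ext fun w => funext fun x => ?_
            simp [L, σ, mulVec_sub, mulVec_smul]) s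
        have h2 := LinearMap.congr_fun h1 fun i => P i j
        rw [LinearMap.comp_apply, LinearMap.comp_apply, hs, map_zero] at h2
        exact h2
      · rw [ht, Matrix.mul_assoc, mul_eq_one_comm.1 hP, Matrix.mul_one, Matrix.one_mul,
          mul_diagonal, mul_comm]
    | algebraMap a =>
      have h1 : χ 1 = 0 := by simpa using hχ 1 1
      refine Submodule.mem_iSup_of_mem ⟨(1, 0), by simpa using h1⟩ ((mem _ _).2 ⟨?_, by simp⟩)
      refine (End.mem_maxGenEigenspace _ _ _).2 ⟨1, funext fun x => ?_⟩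
      simp [σ, r]
    | add f g _ _ hf hg => exact add_mem hf hg
    | mul f g _ _ hf hg => exact hmul (Submodule.mul_mem_mul hf hg)
  obtain ⟨a, ha, rfl⟩ := (Submodule.mem_iSup_iff_exists_finsupp _ _).1 (hall f hf)
  have hind := (End.independent_maxGenEigenspace σ.toLinearMap).comp
    (f := fun p : ι => (p.1.1 : Ω)) (fun p q hpq => by
      have h1 : p.1.1 = q.1.1 := Units.ext hpq
      refine Subtype.ext (Prod.ext h1 ?_)
      have := p.2
      rw [h1, q.2] at this
      exact_mod_cast this.symm)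
  have h1 := (iSupIndep_iff_finsetSum_eq_zero_imp_eq_zero _).1 hind a.support (fun p => r (a p))
    (fun p _ => ((mem _ _).1 (ha p)).1) (by
      rw [← map_sum]
      exact funext fun x => x.2 _ hf h0)
  rw [Finsupp.sum, Finset.sum_apply]
  refine Finset.sum_eq_zero fun p hp => ?_
  have h2 : a p 1 = 0 := congrFun (h1 p hp) ⟨1, one_mem_cl ρ⟩
  rw [((mem _ _).1 (ha p)).2, h2, mul_zero]

lemma exists_chi {K Λ : Type} [Field K] [Fintype Λ] (e : Λ → Kˣ) (u : Kˣ)
    (hu : ∀ N : ℕ, N ≠ 0 → u ^ N ≠ 1) : ∃ (χ : Kˣ → ℚ) (w : Λ → ℤ),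
      (∀ u v, χ (u * v) = χ u + χ v) ∧ (∀ μ, χ (e μ) = w μ) ∧ 0 < χ u := by
  obtain ⟨h, hh⟩ := (Module.Baer.of_divisible ℚ).extension_property_addMonoidHom
    (zmultiplesHom (Additive Kˣ) (Additive.ofMul u)) (by
      rw [injective_iff_map_eq_zero]
      intro a ha
      by_contra h0
      have h1 : u ^ a = 1 := ha
      exact hu a.natAbs (by omega) (by rwa [pow_natAbs_eq_one])) (Int.castAddHom ℚ)
  have h1 : h (Additive.ofMul u) = 1 := by simpa using DFunLike.congr_fun hh 1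
  let D : ℕ := ∏ μ, (h (Additive.ofMul (e μ))).den
  have hD : 0 < D := Finset.prod_pos fun μ _ => Rat.den_pos _
  have : ∀ μ, ∃ w : ℤ, D * h (Additive.ofMul (e μ)) = w := by
    intro μ
    obtain ⟨c, hc⟩ : (h (Additive.ofMul (e μ))).den ∣ D := Finset.dvd_prod_of_mem _ (by simp)
    refine ⟨c * (h (Additive.ofMul (e μ))).num, ?_⟩
    rw [hc]; push_cast
    rw [mul_comm _ (c : ℚ), mul_assoc, Rat.den_mul_eq_num]
  choose w hw using this
  refine ⟨fun u => D * h (Additive.ofMul u), w,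
    fun u v => by simp only [ofMul_mul, map_add, mul_add], hw, ?_⟩
  simp only [h1, mul_one]; exact_mod_cast hD

lemma exists_genbasis [IsAlgClosed Ω] (g : End Ω (n → Ω)) :
    ∃ (b : Basis n Ω (n → Ω)) (μ : n → Ω), ∀ j, b j ∈ g.maxGenEigenspace (μ j) := by
  obtain ⟨s, h1, h2, h3⟩ := exists_linearIndependent Ω (⋃ μ, (g.maxGenEigenspace μ : Set (n → Ω)))
  rw [Submodule.span_iUnion] at h2
  simp only [Submodule.span_eq, End.iSup_maxGenEigenspace_eq_top] at h2
  let b0 : Basis s Ω (n → Ω) := Basis.mk h3 (by rw [Subtype.range_coe, h2])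
  let b := b0.reindex (b0.indexEquiv (Pi.basisFun Ω n))
  have : ∀ j, ∃ μ, b j ∈ g.maxGenEigenspace μ := fun j => by
    have : b j ∈ s := by
      simp only [b, b0, Basis.reindex_apply, Basis.mk_apply]
      exact Subtype.prop _
    exact Set.mem_iUnion.1 (h1 this)
  choose μ hμ using this
  exact ⟨b, μ, hμ⟩

theorem quasi_unip [IsAlgClosed Ω] {ρ : Γ →* Matrix n n Ω} (hI : (van (Set.range ρ)).IsPrime)
    {c : Matrix n n Ω} {m : ℕ} (hc : ∀ g, (ρ g * c) ^ (m + 1) = 1) (τ : Ωˣ)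
    (hτ : ∀ k : ℤ, τ ^ k = 1 → k = 0) {g : Matrix n n Ω}
    (hg : g ∈ cl (Set.range (ρ.comp (commutator Γ).subtype))) {a : Ω} (ha : (a • 1 - g).det = 0) :
    ∃ N : ℕ, N ≠ 0 ∧ a ^ N = 1 := by
  by_contra hcon
  push Not at hcon
  obtain ⟨b, μ, hμ⟩ := exists_genbasis (toLin' g)
  have h0 : ∀ j, μ j ≠ 0 := by
    intro j hj
    obtain ⟨s, hs⟩ := (End.mem_maxGenEigenspace _ _ _).1 (hμ j)
    have h1 := iv_mul hc (cl_sub ρ _ hg)
    have h2 : iv c m g ^ s * g ^ s = 1 := by
      rw [← Commute.mul_pow (h1.trans (mul_eq_one_comm.1 h1).symm), h1, one_pow]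
    rw [hj, zero_smul, sub_zero, ← toLin'_pow, toLin'_apply] at hs
    apply b.ne_zero j
    rw [← one_mulVec (b j), ← h2, ← mulVec_mulVec, hs, mulVec_zero]
  obtain ⟨j₀, rfl⟩ : ∃ j, μ j = a := by
    by_contra hn
    push Not at hn
    obtain ⟨w, hw0, hw⟩ := exists_mulVec_eq_zero_iff.2 ha
    have h1 : w ∈ End.maxGenEigenspace (toLin' g) a := by
      refine (End.mem_maxGenEigenspace _ _ _).2 ⟨1, ?_⟩
      rw [sub_mulVec, smul_mulVec, one_mulVec, sub_eq_zero] at hw
      simp [← hw]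
    have h2 : w ∈ ⨆ ν ≠ a, End.maxGenEigenspace (toLin' g) ν := by
      rw [← b.sum_repr w]
      exact sum_mem fun j _ => Submodule.smul_mem _ _
        (Submodule.mem_iSup_of_mem (μ j) (Submodule.mem_iSup_of_mem (hn j) (hμ j)))
    exact hw0 (Submodule.disjoint_def.1 (End.independent_maxGenEigenspace (toLin' g) a) w h1 h2)
  obtain ⟨χ, w, h1, h2, h3⟩ := exists_chi (fun j => Units.mk0 (μ j) (h0 j))
    (Units.mk0 (μ j₀) (h0 j₀)) fun N hN e => hcon N hN (congrArg Units.val e)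
  have hP := Basis.toMatrix_mul_toMatrix_flip (Pi.basisFun Ω n) b
  have := no_cochar hI hc hP w τ hτ (cochar_mem _ hg hP (fun j => Units.mk0 (μ j) (h0 j))
    (fun j => hμ j) χ h1 w h2) j₀
  rw [h2, this] at h3
  simp at h3

end Pool.Agent.Lib.MP_0c623d_al
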