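import Pool.Agent.Lib.MP_0c623d_al.Ros

/-! The determinant of a filtration: there is no cocharacter in the closure of the commutator
subgroup. -/

set_option linter.style.haveILetI false
set_option linter.unusedSectionVars false

namespace Pool.Agent.Lib.MP_0c623d_al

open Polynomial Matrix

variable {n : Type} [Fintype n] [DecidableEq n]

section ring

variable {A B : Type} [CommRing A] [CommRing B]

/-- A matrix of polynomials. -/
noncomputable def zM (e : n → ℕ) (Q R : Matrix n n A) : Matrix n n A[X] :=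
  Q.map C * diagonal (fun j => X ^ e j) * R.map C

/-- The matrix of coefficients of a family adapted to the filtration by the powers of `z`. -/
noncomputable def bigM (e : n → ℕ) (m D : ℕ) (z : Matrix n n A[X]) (Q : Matrix n n A) :
    Matrix (n × Fin D) (Fin m × Σ j, Fin (e j)) A :=
  of fun r s => (X ^ (s.2.2 : ℕ) * (z ^ (s.1 : ℕ) * Q.map C) r.1 s.2.1).coeff r.2

lemma bigM_apply (e : n → ℕ) (m D : ℕ) (z : Matrix n n A[X]) (Q : Matrix n n A) (r s) :
    bigM e m D z Q r s = (X ^ (s.2.2 : ℕ) * (z ^ (s.1 : ℕ) * Q.map C) r.1 s.2.1).coeff r.2 := rfl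

lemma map_map_C (f : A →+* B) (Q : Matrix n n A) :
    (mapRingHom f).mapMatrix (Q.map C) = (Q.map f).map C := by
  ext i j : 2
  simp

lemma zM_map (f : A →+* B) (e : n → ℕ) (Q R : Matrix n n A) :
    (mapRingHom f).mapMatrix (zM e Q R) = zM e (Q.map f) (R.map f) := by
  rw [zM, zM, map_mul, map_mul, map_map_C, map_map_C, RingHom.mapMatrix_apply,
    diagonal_map (map_zero _)]
  simp

lemma bigM_map (f : A →+* B) (e : n → ℕ) (m D : ℕ) (z : Matrix n n A[X]) (Q : Matrix n n A) :
    (bigM e m D z Q).map f = bigM e m D ((mapRingHom f).mapMatrix z) (Q.map f) := by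
  ext r s
  rw [map_apply, bigM_apply, bigM_apply, ← map_map_C, ← map_pow, ← map_mul, ← coeff_map]
  simp

lemma bigM_diag (e : n → ℕ) (m D : ℕ) (z : Matrix n n A[X]) (Q : Matrix n n A) (l : n → A)
    (σ : n × Fin D → Fin m × Σ j, Fin (e j)) : (bigM e m D z (Q * diagonal l)).submatrix id σ =
      (bigM e m D z Q).submatrix id σ * diagonal fun s => l (σ s).2.1 := by
  ext r s
  rw [mul_diagonal, submatrix_apply, submatrix_apply, bigM_apply, bigM_apply, Matrix.map_mul, diagonal_map (map_zero _), ← Matrix.mul_assoc,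
    mul_diagonal, ← mul_assoc, coeff_mul_C]

lemma zM_diag (e : n → ℕ) (Q R : Matrix n n A) (l l' : n → A) (h : ∀ j, l j * l' j = 1) :
    zM e (Q * diagonal l) (diagonal l' * R) = zM e Q R := by
  have : diagonal (fun j => C (l j)) * diagonal (fun j => (X : A[X]) ^ e j) *
      diagonal (fun j => C (l' j)) = diagonal fun j => X ^ e j := by
    rw [diagonal_mul_diagonal, diagonal_mul_diagonal]
    congr 1
    funext j
    rw [mul_right_comm, ← C_mul, h, C_1, one_mul]
  rw [zM, zM, Matrix.map_mul, Matrix.map_mul, diagonal_map (map_zero _), diagonal_map (map_zero _)]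
  conv_rhs => rw [← this]
  simp only [Matrix.mul_assoc]

lemma zM_eval (e : n → ℕ) (Q R : Matrix n n A) (v : A) :
    (evalRingHom v).mapMatrix (zM e Q R) = Q * diagonal (fun j => v ^ e j) * R := by
  have h : ∀ Q : Matrix n n A, (evalRingHom v).mapMatrix (Q.map C) = Q := fun Q => by
    ext i j
    simp
  rw [zM, map_mul, map_mul, h, h, RingHom.mapMatrix_apply, diagonal_map (map_zero _)]
  simp

end ring

variable {Ω : Type} [Field Ω]

lemma filt (e : n → ℕ) {Q Q' R : Matrix n n Ω} (hQ : Q' * Q = 1)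
    (hz : ∀ u, zM e Q R *ᵥ u = 0 → u = 0) (r : ℕ) :
    ∀ (w : Fin r → n → Polynomial Ω) (u : n → Polynomial Ω), (∀ i j, (w i j).degree < e j) →
      ∑ i : Fin r, (zM e Q R ^ (i : ℕ) * Q.map C) *ᵥ w i = zM e Q R ^ r *ᵥ u → ∀ i, w i = 0 := by
  induction r with
  | zero => exact fun _ _ _ _ i => i.elim0
  | succ r ih =>
    intro w u hw h
    have hC : Q'.map C * Q.map C = (1 : Matrix n n (Polynomial Ω)) := by
      rw [← Matrix.map_mul, hQ, Matrix.map_one _ (map_zero _) (map_one _)]
    have h1 : Q.map C *ᵥ w 0 = zM e Q R *ᵥ (zM e Q R ^ r *ᵥ u -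
        ∑ i : Fin r, (zM e Q R ^ (i : ℕ) * Q.map C) *ᵥ w i.succ) := by
      rw [Fin.sum_univ_succ] at h
      rw [mulVec_sub, mulVec_mulVec, ← pow_succ', ← h, mulVec_sum]
      simp only [Fin.val_zero, pow_zero, Matrix.one_mul, Fin.val_succ, pow_succ', mulVec_mulVec,
        Matrix.mul_assoc, add_sub_cancel_right]
    have h2 : w 0 = 0 := by
      have h3 := congrArg (Q'.map C *ᵥ ·) h1
      generalize zM e Q R ^ r *ᵥ u - _ = y at h3
      simp only [mulVec_mulVec, zM, ← Matrix.mul_assoc, hC, one_mulVec, Matrix.one_mul] at h3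
      funext j
      refine eq_zero_of_dvd_of_degree_lt (p := X ^ e j) ?_ (by simpa using hw 0 j)
      rw [h3, ← mulVec_mulVec, mulVec_diagonal]
      exact dvd_mul_right _ _
    rw [h2, mulVec_zero] at h1
    have h4 := ih (fun i => w i.succ) u (fun i j => hw _ j) (sub_eq_zero.1 (hz _ h1.symm)).symm
    exact fun i => Fin.cases h2 h4 i

lemma bigM_inj (e : n → ℕ) {Q Q' R : Matrix n n Ω} (hQ : Q' * Q = 1) {m D : ℕ}
    (hz : zM e Q R ^ (m + 1) = (X : Polynomial Ω) ^ D • 1) (a : Fin (m + 1) × (Σ j, Fin (e j)) → Ω)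
    (ha : bigM e (m + 1) D (zM e Q R) Q *ᵥ a = 0) : a = 0 := by
  let w : Fin (m + 1) → n → Polynomial Ω := fun i j => ∑ k : Fin (e j), C (a (i, ⟨j, k⟩)) * X ^ (k : ℕ)
  have hdvd : ∀ r, X ^ D ∣ (∑ i : Fin (m + 1), (zM e Q R ^ (i : ℕ) * Q.map C) *ᵥ w i) r := by
    intro r
    rw [X_pow_dvd_iff]
    intro l hl
    refine Eq.trans ?_ (congrFun ha (r, ⟨l, hl⟩))
    simp only [w, Finset.sum_apply, mulVec, dotProduct, finsetSum_coeff, Fintype.sum_prod_type,
      Fintype.sum_sigma, Finset.mul_sum, bigM_apply]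
    refine Finset.sum_congr rfl fun i _ => Finset.sum_congr rfl fun j _ =>
      Finset.sum_congr rfl fun k _ => ?_
    rw [← coeff_mul_C]
    congr 1
    ring
  choose u hu using hdvd
  have h0 := filt e hQ (fun u h => by
    have : (X : Polynomial Ω) ^ D • u = 0 := by
      rw [← one_mulVec u, ← smul_mulVec, ← hz, pow_succ, ← mulVec_mulVec, h, mulVec_zero]
    exact (smul_eq_zero.1 this).resolve_left (pow_ne_zero _ X_ne_zero)) (m + 1) w u
    (fun i j => degree_sum_fin_lt _) (by
      rw [hz, smul_mulVec, one_mulVec]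
      exact funext hu)
  funext ⟨i, j, k⟩
  have := congrArg (fun p => p.coeff k) (congrFun (h0 i) j)
  simp only [w, finsetSum_coeff, coeff_C_mul_X_pow, Pi.zero_apply, coeff_zero, Fin.val_inj,
    Finset.sum_ite_eq, Finset.mem_univ, if_true] at this
  exact this

lemma prod_zp {G ι : Type} [CommGroup G] (a : G) (s : Finset ι) (f : ι → ℤ) :
    ∏ i ∈ s, a ^ f i = a ^ ∑ i ∈ s, f i := by
  classical
  induction s using Finset.induction_on with
  | empty => simp
  | insert i s hi ih => rw [Finset.prod_insert hi, Finset.sum_insert hi, ih, _root_.zpow_add]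

variable {Γ : Type} [Group Γ]

lemma cl_sub (ρ : Γ →* Matrix n n Ω) (K : Subgroup Γ) {x : Matrix n n Ω}
    (hx : x ∈ cl (Set.range (ρ.comp K.subtype))) : x ∈ cl (Set.range ρ) :=
  cl_map id_mem (by rintro _ ⟨g, rfl⟩; exact subset_cl ⟨g, rfl⟩) x hx

theorem no_cochar [IsAlgClosed Ω] {ρ : Γ →* Matrix n n Ω} (hI : (van (Set.range ρ)).IsPrime)
    {c : Matrix n n Ω} {m : ℕ} (hc : ∀ g, (ρ g * c) ^ (m + 1) = 1) {P P' : Matrix n n Ω}
    (hP : P * P' = 1) (h : n → ℤ) (τ : Ωˣ) (hτ : ∀ k : ℤ, τ ^ k = 1 → k = 0)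
    (ht : ∀ v : Ωˣ, P * diagonal (fun j => ((v ^ h j : Ωˣ) : Ω)) * P' ∈
      cl (Set.range (ρ.comp (commutator Γ).subtype))) (j : n) : h j = 0 := by
  have hP' : P' * P = 1 := mul_eq_one_comm.1 hP
  have hsum : ∑ j, h j = 0 := by
    have h1 := const_on_comm ρ hI (det_mem id_mem) (fun x hx h0 => by
      have := congrArg det (mul_iv hc hx)
      rw [det_mul, det_one, show x.det = 0 from h0, zero_mul] at this
      exact zero_ne_one this) _ (ht τ)
    simp only [det_mul, det_one, det_diagonal] at h1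
    rw [mul_right_comm, ← det_mul, hP, det_one, one_mul, ← Units.coe_prod,
      prod_zp] at h1
    exact hτ _ (Units.ext h1)
  let d : ℕ := ∑ j, (h j).natAbs
  let e : n → ℕ := fun j => (d + h j).toNat
  have he : ∀ j, (e j : ℤ) = d + h j := fun j => Int.toNat_of_nonneg (by
    have : (h j).natAbs ≤ d := Finset.single_le_sum (f := fun j => (h j).natAbs)
      (fun _ _ => Nat.zero_le _) (Finset.mem_univ j)
    omega)
  have hcard : ∑ j, e j = Fintype.card n * d := by
    zify
    simp only [he, Finset.sum_add_distrib, hsum]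
    simp
  let σ : n × Fin ((m + 1) * d) ≃ Fin (m + 1) × (Σ j, Fin (e j)) := Fintype.equivOfCardEq (by
    simp only [Fintype.card_prod, Fintype.card_fin, Fintype.card_sigma, hcard]
    ring)
  let φ : Matrix n n Ω → Ω := fun p => ((bigM e (m + 1) ((m + 1) * d)
    (zM e (p * P) (P' * iv c m p * c)) (p * P)).submatrix id σ).det
  have hφ : φ ∈ Reg Ω n := by
    have m1 := RM_mul id_mem (const_mem P)
    have m2 := RM_mul (RM_mul (const_mem P') (iv_mem c m)) (const_mem c)
    have e1 : φ = ((bigM e (m + 1) ((m + 1) * d) (zM e (toM _ m1) (toM _ m2))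
        (toM _ m1)).submatrix id σ).det.1 := by
      funext p
      refine Eq.trans ?_ ((evA p).toRingHom.map_det _).symm
      rw [RingHom.mapMatrix_apply, ← submatrix_map, bigM_map, zM_map]
      rfl
    rw [e1]
    exact Subtype.prop _
  have h0 : ∀ p ∈ cl (Set.range ρ), φ p ≠ 0 := by
    intro p hp h0
    obtain ⟨a, ha0, ha⟩ := exists_mulVec_eq_zero_iff.2 h0
    have hQ : P' * iv c m p * (p * P) = 1 := by
      rw [Matrix.mul_assoc, ← Matrix.mul_assoc _ p, iv_mul hc hp, Matrix.one_mul, hP']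
    have hz : zM e (p * P) (P' * iv c m p * c) ^ (m + 1) = (X : Polynomial Ω) ^ ((m + 1) * d) • 1 := by
      refine Matrix.ext fun i j => ?_
      refine eq_of_infinite_eval_eq _ _ ((Set.finite_singleton (0 : Ω)).infinite_compl.mono ?_)
      intro v hv
      have h1 := pow_cl hc (mul_mem_cl ρ (mul_mem_cl ρ hp (cl_sub ρ _ (ht (Units.mk0 v hv))))
        (iv_mem_cl hc hp))
      have h2 : p * P * diagonal (fun j => v ^ e j) * (P' * iv c m p * c) = v ^ d •
          (p * (P * diagonal (fun j => ((Units.mk0 v hv ^ h j : Ωˣ) : Ω)) * P') * iv c m p * c) := by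
        have : diagonal (fun j => v ^ e j) =
            v ^ d • diagonal (fun j => ((Units.mk0 v hv ^ h j : Ωˣ) : Ω)) := by
          rw [← diagonal_smul]
          congr 1
          funext j
          rw [← zpow_natCast, he, zpow_add₀ hv]
          simp
        rw [this]
        simp only [Matrix.mul_smul, Matrix.smul_mul, Matrix.mul_assoc]
      have h3 : (evalRingHom v).mapMatrix (zM e (p * P) (P' * iv c m p * c) ^ (m + 1)) =
          v ^ ((m + 1) * d) • 1 := by
        rw [map_pow, zM_eval, h2, _root_.smul_pow, h1, ← pow_mul, mul_comm]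
      refine (congrFun (congrFun h3 i) j).trans ?_
      by_cases hij : i = j <;> simp [hij]
    apply ha0
    have h5 := bigM_inj e hQ hz (a ∘ σ.symm) (by
      rw [← ha, submatrix_mulVec_equiv]
      rfl)
    funext s
    simpa using congrFun h5 (σ s)
  have h1 := const_on_comm ρ hI hφ h0 _ (ht τ)
  have i1 : iv c m 1 = 1 := by simpa using mul_iv hc (one_mem_cl ρ)
  have i2 : P' * iv c m (P * diagonal (fun j => ((τ ^ h j : Ωˣ) : Ω)) * P') =
      diagonal (fun j => (((τ ^ h j)⁻¹ : Ωˣ) : Ω)) * P' := by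
    have i3 := mul_iv hc (cl_sub ρ _ (ht τ))
    generalize iv c m _ = y at i3
    have i4 : diagonal (fun j => (((τ ^ h j)⁻¹ : Ωˣ) : Ω)) *
        diagonal (fun j => ((τ ^ h j : Ωˣ) : Ω)) = 1 := by
      rw [diagonal_mul_diagonal, ← diagonal_one]
      congr 1
      funext j
      exact Units.inv_mul _
    calc P' * y = (diagonal (fun j => (((τ ^ h j)⁻¹ : Ωˣ) : Ω)) * ((P' * P) *
          diagonal (fun j => ((τ ^ h j : Ωˣ) : Ω)))) * (P' * y) := by
          rw [hP', Matrix.one_mul, i4, Matrix.one_mul]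
      _ = diagonal (fun j => (((τ ^ h j)⁻¹ : Ωˣ) : Ω)) * P' *
          (P * diagonal (fun j => ((τ ^ h j : Ωˣ) : Ω)) * P' * y) := by
          simp only [Matrix.mul_assoc]
      _ = _ := by rw [i3, Matrix.mul_one]
  have h2 : φ (P * diagonal (fun j => ((τ ^ h j : Ωˣ) : Ω)) * P') =
      φ 1 * ((τ ^ ∑ s : Fin (m + 1) × (Σ j, Fin (e j)), h s.2.1 : Ωˣ) : Ω) := by
    simp only [φ]
    rw [i1, i2, Matrix.mul_assoc _ P' P, hP', Matrix.mul_one, Matrix.mul_assoc _ P' c,
      zM_diag _ _ _ _ _ (fun j => Units.mul_inv _), bigM_diag,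
      det_mul, det_diagonal, Matrix.one_mul, Matrix.mul_one, ← Units.coe_prod, prod_zp,
      σ.sum_comp fun s => h s.2.1]
  rw [h2, mul_eq_left₀ (h0 1 (one_mem_cl ρ))] at h1
  have h3 := hτ _ (Units.ext h1)
  have h4 : ∑ s : Fin (m + 1) × (Σ j, Fin (e j)), h s.2.1 = (m + 1) * ∑ j, h j ^ 2 := by
    simp only [Fintype.sum_prod_type, Fintype.sum_sigma, Finset.sum_const, Finset.card_univ,
      Fintype.card_fin, nsmul_eq_mul, he, add_mul, Finset.sum_add_distrib, ← Finset.mul_sum, hsum]
    simp [sq, add_mul]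
  rw [h4, mul_eq_zero, Finset.sum_eq_zero_iff_of_nonneg fun _ _ => sq_nonneg _] at h3
  exact pow_eq_zero_iff (two_ne_zero) |>.1 ((h3.resolve_left (by omega)) j (Finset.mem_univ j))

end Pool.Agent.Lib.MP_0c623d_al
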