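import Pool.Agent.Lib.MP_0c623d_al.Zar

/-! Rosenlicht's theorem: a nowhere vanishing function on an irreducible closed group of matrices
is a multiple of a character. -/

set_option linter.style.haveILetI false
set_option linter.unusedSectionVars false

namespace Pool.Agent.Lib.MP_0c623d_al

variable {Ω : Type} [Field Ω] {n : Type} [Fintype n] [DecidableEq n]

lemma lin_tr_mem (f : Reg Ω n) (l : Reg Ω n →ₗ[Ω] Ω) : (fun p => l (tr p f)) ∈ Reg Ω n := by
  let T : Submodule Ω (Matrix n n Ω → Reg Ω n) :=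
    Submodule.span Ω {U | ∃ a ∈ Reg Ω n, ∃ b : Reg Ω n, U = fun p => a p • b}
  have hmul : ∀ U ∈ T, ∀ V ∈ T, U * V ∈ T := by
    intro U hU V hV
    induction hU using Submodule.span_induction with
    | mem U hU =>
      induction hV using Submodule.span_induction with
      | mem V hV =>
        obtain ⟨a, ha, b, rfl⟩ := hU
        obtain ⟨a', ha', b', rfl⟩ := hV
        refine Submodule.subset_span ⟨a * a', mul_mem ha ha', b * b', funext fun p => ?_⟩
        simp only [Pi.mul_apply, smul_mul_smul_comm]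
      | zero => rw [mul_zero]; exact zero_mem _
      | add V W _ _ h1 h2 => rw [mul_add]; exact add_mem h1 h2
      | smul a V _ h1 => rw [mul_smul_comm]; exact T.smul_mem a h1
    | zero => rw [zero_mul]; exact zero_mem _
    | add U W _ _ h1 h2 => rw [add_mul]; exact add_mem h1 h2
    | smul a U _ h1 => rw [smul_mul_assoc]; exact T.smul_mem a h1
  have h1 : ∀ f (hf : f ∈ Reg Ω n), (fun p => tr p ⟨f, hf⟩) ∈ T := by
    intro f hf
    induction hf using Algebra.adjoin_induction with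
    | mem f hf =>
      obtain ⟨ij, rfl⟩ := hf
      have e : (fun p => tr p ⟨_, coord_mem ij.1 ij.2⟩) = ∑ k, fun p : Matrix n n Ω =>
          p ij.1 k • (⟨_, coord_mem k ij.2⟩ : Reg Ω n) := by
        funext p
        apply Subtype.ext
        funext x
        simp [Matrix.mul_apply]
      exact e ▸ sum_mem fun k _ => Submodule.subset_span ⟨_, coord_mem ij.1 k, _, rfl⟩
    | algebraMap a =>
      exact Submodule.subset_span ⟨1, one_mem _, algebraMap Ω _ a, funext fun p =>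
        ((tr p).commutes a).trans (one_smul _ _).symm⟩
    | add f g hf hg ihf ihg => exact add_mem ihf ihg
    | mul f g hf hg ihf ihg => exact hmul _ ihf _ ihg
  have h2 : ∀ U ∈ T, (fun p => l (U p)) ∈ Reg Ω n := by
    intro U hU
    induction hU using Submodule.span_induction with
    | mem U hU =>
      obtain ⟨a, ha, b, rfl⟩ := hU
      have e : (fun p => l (a p • b)) = l b • a := by
        funext p
        simp [mul_comm]
      exact e ▸ (Reg Ω n).smul_mem ha _
    | zero =>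
      simp only [Pi.zero_apply, map_zero]
      exact (Reg Ω n).zero_mem
    | add U W _ _ h1 h2 =>
      simp only [Pi.add_apply, map_add]
      exact add_mem h1 h2
    | smul a U _ h1 =>
      simp only [Pi.smul_apply, map_smul]
      exact (Reg Ω n).smul_mem h1 a
  exact h2 _ (h1 f.1 f.2)

lemma val_split [IsAlgClosed Ω] {K : Type} [Field K] [Algebra Ω K] {t : K}
    (hn : t ∉ (algebraMap Ω K).range) : ∃ l1 l2 : K →ₗ[Ω] Ω, l1 t ≠ 0 ∧ l2 1 ≠ 0 ∧
      ∀ x, l1 x = 0 ∨ l2 x⁻¹ = 0 := by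
  have hn' : t ∉ (integralClosure Ω K).toSubring := fun hi =>
    hn (minpoly.mem_range_of_degree_eq_one Ω _
      (IsAlgClosed.degree_eq_one_of_irreducible Ω (minpoly.irreducible hi)))
  obtain ⟨V, hV, hV'⟩ := Subring.exists_le_valuationSubring_of_isIntegrallyClosedIn hn'
  have hΩ : ∀ a : Ω, algebraMap Ω K a ∈ V := fun a => hV ((integralClosure Ω K).algebraMap_mem a)
  let W1 : Submodule Ω K :=
    { carrier := {k | k ∈ V}
      add_mem' := fun ha hb => V.add_mem _ _ ha hb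
      zero_mem' := zero_mem V
      smul_mem' := fun a k hk => by
        change a • k ∈ V
        rw [Algebra.smul_def]
        exact mul_mem (hΩ a) hk }
  let W2 : Submodule Ω K :=
    { carrier := {k | k ∈ V.nonunits}
      add_mem' := fun ha hb => V.nonunits.add_mem ha hb
      zero_mem' := zero_mem V.nonunits
      smul_mem' := fun a k hk => by
        change a • k ∈ V.nonunits
        have hk' : V.valuation k < 1 := V.mem_nonunits_iff.1 hk
        rw [Algebra.smul_def, V.mem_nonunits_iff, map_mul]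
        exact lt_of_le_of_lt (mul_le_of_le_one_left' ((V.valuation_le_one_iff _).2 (hΩ a))) hk' }
  obtain ⟨l1, a1, b1⟩ := W1.exists_dual_map_eq_bot_of_notMem (x := t) hV' inferInstance
  obtain ⟨l2, a2, b2⟩ := W2.exists_dual_map_eq_bot_of_notMem (x := 1) (by
    change 1 ∉ V.nonunits
    rw [V.mem_nonunits_iff]
    simp) inferInstance
  have c1 : ∀ k ∈ W1, l1 k = 0 := fun k hk => (Submodule.mem_bot Ω).1 (b1 ▸ ⟨k, hk, rfl⟩)
  have c2 : ∀ k ∈ W2, l2 k = 0 := fun k hk => (Submodule.mem_bot Ω).1 (b2 ▸ ⟨k, hk, rfl⟩)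
  refine ⟨l1, l2, a1, a2, fun x => ?_⟩
  by_cases hx : x ∈ V
  · exact Or.inl (c1 x hx)
  · exact Or.inr (c2 _ (V.inv_mem_nonunits_iff.2 (Or.inr hx)))

variable {Γ : Type} [Group Γ]

lemma ros_aux [IsAlgClosed Ω] (ρ : Γ →* Matrix n n Ω) (hP : (van (Set.range ρ)).IsPrime)
    {K : Type} [Field K] [Algebra Ω K] (θ : Reg Ω n →ₐ[Ω] K)
    (hθ : ∀ f, θ f = 0 ↔ f ∈ van (Set.range ρ))
    {u : Matrix n n Ω → Ω} (hu : u ∈ Reg Ω n) (h0 : ∀ x ∈ cl (Set.range ρ), u x ≠ 0)
    (g g' : Γ) : u (ρ g * ρ g') * u 1 = u (ρ g) * u (ρ g') := by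
  obtain ⟨w, hw, huw⟩ := exists_inv hu h0
  let U : Γ → K := fun r => θ (tr (ρ r) ⟨u, hu⟩)
  let W : Γ → K := fun r => θ (tr (ρ r) ⟨w, hw⟩)
  have hUW : ∀ r, U r * W r = 1 := by
    intro r
    rw [← map_mul, ← map_one θ, ← sub_eq_zero, ← map_sub, hθ]
    rintro _ ⟨y, rfl⟩
    exact sub_eq_zero.2 (huw _ (subset_cl ⟨r * y, map_mul ρ r y⟩))
  have key : U g * W 1 ∈ (algebraMap Ω K).range := by
    by_contra hn
    obtain ⟨l1, l2, a1, a2, hl⟩ := val_split hn
    have m1 := lin_tr_mem ⟨u, hu⟩ ((l1.comp (LinearMap.mulRight Ω (W 1))).comp θ.toLinearMap)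
    have m2 := lin_tr_mem ⟨w, hw⟩ ((l2.comp (LinearMap.mulRight Ω (U 1))).comp θ.toLinearMap)
    have := hP.mem_or_mem (x := ⟨_, m1⟩) (y := ⟨_, m2⟩) (by
      rintro _ ⟨r, rfl⟩
      change l1 (U r * W 1) * l2 (W r * U 1) = 0
      have e : W r * U 1 = (U r * W 1)⁻¹ := by
        apply eq_inv_of_mul_eq_one_left
        calc W r * U 1 * (U r * W 1) = (U r * W r) * (U 1 * W 1) := by ring
          _ = 1 := by rw [hUW, hUW, one_mul]
      rw [e]
      exact mul_eq_zero.2 (hl _))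
    rcases this with h | h
    · exact a1 (h _ ⟨g, rfl⟩)
    · have h2 : l2 (W 1 * U 1) = 0 := h _ ⟨1, rfl⟩
      rw [mul_comm, hUW] at h2
      exact a2 h2
  obtain ⟨a, ha⟩ := key
  have e : θ (tr (ρ g) ⟨u, hu⟩ - a • tr (ρ 1) ⟨u, hu⟩) = 0 := by
    rw [map_sub, map_smul, Algebra.smul_def, ha, sub_eq_zero]
    change U g = U g * W 1 * U 1
    rw [mul_assoc, mul_comm (W 1), hUW, mul_one]
  rw [hθ] at e
  have e' : ∀ y, u (ρ g * ρ y) = a * u (ρ y) := fun y => by
    have h3 : u (ρ g * ρ y) - a * u (ρ 1 * ρ y) = 0 := e _ ⟨y, rfl⟩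
    rwa [map_one, one_mul, sub_eq_zero] at h3
  have e1 := e' 1
  rw [map_one, mul_one] at e1
  rw [e', e1]
  ring

theorem rosenlicht [IsAlgClosed Ω] (ρ : Γ →* Matrix n n Ω) (hP : (van (Set.range ρ)).IsPrime)
    {u : Matrix n n Ω → Ω} (hu : u ∈ Reg Ω n) (h0 : ∀ x ∈ cl (Set.range ρ), u x ≠ 0)
    (g g' : Γ) : u (ρ g * ρ g') * u 1 = u (ρ g) * u (ρ g') := by
  refine ros_aux ρ hP (K := FractionRing (Reg Ω n ⧸ van (Set.range ρ)))
    ((IsScalarTower.toAlgHom Ω (Reg Ω n ⧸ van (Set.range ρ)) _).comp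
      (Ideal.Quotient.mkₐ Ω (van (Set.range ρ))))
    (fun f => ?_) hu h0 g g'
  rw [← Ideal.Quotient.eq_zero_iff_mem]
  exact map_eq_zero_iff (algebraMap (Reg Ω n ⧸ van (Set.range ρ)) _) (IsFractionRing.injective _ _)

/-- A nowhere vanishing function is constant on the closure of the commutator subgroup. -/
theorem const_on_comm [IsAlgClosed Ω] (ρ : Γ →* Matrix n n Ω) (hP : (van (Set.range ρ)).IsPrime)
    {u : Matrix n n Ω → Ω} (hu : u ∈ Reg Ω n) (h0 : ∀ x ∈ cl (Set.range ρ), u x ≠ 0) :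
    ∀ x ∈ cl (Set.range (ρ.comp (commutator Γ).subtype)), u x = u 1 := by
  have h1 := h0 1 (one_mem_cl ρ)
  let χ : Γ →* Ω :=
    { toFun := fun g => u (ρ g) / u 1
      map_one' := by rw [map_one, div_self h1]
      map_mul' := fun g g' => by
        rw [map_mul, div_mul_div_comm, ← rosenlicht ρ hP hu h0 g g', mul_div_mul_right _ _ h1] }
  refine cl_eq hu ((Reg Ω n).algebraMap_mem (u 1)) ?_
  rintro _ ⟨g, rfl⟩
  have h2 : χ.toHomUnits g = 1 := Abelianization.commutator_subset_ker χ.toHomUnits g.2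
  have h3 : u (ρ g) / u 1 = 1 := congrArg Units.val h2
  exact (div_eq_one_iff_eq h1).1 h3

end Pool.Agent.Lib.MP_0c623d_al
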