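import Mathlib

/-! Polynomial functions on the space of matrices and Zariski closures. -/

set_option linter.style.haveILetI false
set_option linter.unusedSectionVars false

namespace Pool.Agent.Lib.MP_0c623d_al

variable {Ω : Type} [Field Ω] {n : Type} [Fintype n] [DecidableEq n]

variable (n Ω) in
/-- Polynomial functions on the space of matrices. -/
def Reg : Subalgebra Ω (Matrix n n Ω → Ω) :=
  Algebra.adjoin Ω (Set.range fun ij : n × n => fun x : Matrix n n Ω => x ij.1 ij.2)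

variable (n Ω) in
/-- Polynomial self-maps of the space of matrices. -/
def RM : Subalgebra Ω (Matrix n n Ω → Matrix n n Ω) where
  carrier := {F | ∀ i j, (fun x => F x i j) ∈ Reg Ω n}
  mul_mem' := fun {F G} hF hG i j => by
    have e : (fun x => (F * G) x i j) = ∑ k, (fun x => F x i k) * (fun x => G x k j) := by
      funext x
      simp [Matrix.mul_apply]
    rw [e]
    exact sum_mem fun k _ => mul_mem (hF i k) (hG k j)
  add_mem' := fun {F G} hF hG i j => add_mem (hF i j) (hG i j)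
  algebraMap_mem' := fun a i j => (Reg Ω n).algebraMap_mem (algebraMap Ω (Matrix n n Ω) a i j)

omit [Fintype n] [DecidableEq n] in
lemma coord_mem (i j : n) : (fun x : Matrix n n Ω => x i j) ∈ Reg Ω n :=
  Algebra.subset_adjoin ⟨(i, j), rfl⟩

lemma id_mem : (fun x => x) ∈ RM Ω n := fun i j => coord_mem i j

lemma const_mem (a : Matrix n n Ω) : (fun _ => a) ∈ RM Ω n :=
  fun i j => (Reg Ω n).algebraMap_mem (a i j)

lemma RM_mul {F G : Matrix n n Ω → Matrix n n Ω} (hF : F ∈ RM Ω n) (hG : G ∈ RM Ω n) :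
    (fun x => F x * G x) ∈ RM Ω n := mul_mem hF hG

lemma RM_pow {F : Matrix n n Ω → Matrix n n Ω} (hF : F ∈ RM Ω n) (k : ℕ) :
    (fun x => F x ^ k) ∈ RM Ω n := pow_mem hF k

lemma RM_sub {F G : Matrix n n Ω → Matrix n n Ω} (hF : F ∈ RM Ω n) (hG : G ∈ RM Ω n) :
    (fun x => F x - G x) ∈ RM Ω n := sub_mem hF hG

lemma Reg_comp {f : Matrix n n Ω → Ω} (hf : f ∈ Reg Ω n) {F : Matrix n n Ω → Matrix n n Ω}
    (hF : F ∈ RM Ω n) : (fun x => f (F x)) ∈ Reg Ω n := by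
  induction hf using Algebra.adjoin_induction with
  | mem f hf =>
    obtain ⟨ij, rfl⟩ := hf
    exact hF ij.1 ij.2
  | algebraMap a => exact (Reg Ω n).algebraMap_mem a
  | add f g _ _ hf hg => exact add_mem hf hg
  | mul f g _ _ hf hg => exact mul_mem hf hg

/-- Evaluation at a point. -/
def evA (x : Matrix n n Ω) : Reg Ω n →ₐ[Ω] Ω :=
  (Pi.evalAlgHom Ω (fun _ => Ω) x).comp (Reg Ω n).val

omit [Fintype n] [DecidableEq n] in
@[simp] lemma evA_apply (x : Matrix n n Ω) (f : Reg Ω n) : evA x f = f.1 x := rfl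

/-- The matrix of functions given by a polynomial map. -/
def toM (F : Matrix n n Ω → Matrix n n Ω) (hF : F ∈ RM Ω n) : Matrix n n (Reg Ω n) :=
  fun i j => ⟨_, hF i j⟩

lemma toM_map (F : Matrix n n Ω → Matrix n n Ω) (hF : F ∈ RM Ω n) (x : Matrix n n Ω) :
    (toM F hF).map (evA x) = F x := rfl

lemma det_mem {F : Matrix n n Ω → Matrix n n Ω} (hF : F ∈ RM Ω n) :
    (fun x => (F x).det) ∈ Reg Ω n := by
  have e : (fun x => (F x).det) = (toM F hF).det.1 := by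
    funext x
    exact ((evA x).map_det (toM F hF)).symm
  rw [e]
  exact Subtype.prop _

/-- Zariski closure. -/
def cl (S : Set (Matrix n n Ω)) : Set (Matrix n n Ω) :=
  {x | ∀ f ∈ Reg Ω n, (∀ y ∈ S, f y = 0) → f x = 0}

omit [Fintype n] [DecidableEq n] in
lemma subset_cl {S : Set (Matrix n n Ω)} {x : Matrix n n Ω} (h : x ∈ S) : x ∈ cl S :=
  fun _ _ h0 => h0 x h

lemma cl_map {S T : Set (Matrix n n Ω)} {F : Matrix n n Ω → Matrix n n Ω} (hF : F ∈ RM Ω n)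
    (h : ∀ y ∈ S, F y ∈ cl T) : ∀ x ∈ cl S, F x ∈ cl T :=
  fun _ hx f hf h0 => hx _ (Reg_comp hf hF) fun y hy => h y hy f hf h0

omit [Fintype n] [DecidableEq n] in
lemma cl_eq {S : Set (Matrix n n Ω)} {f g : Matrix n n Ω → Ω} (hf : f ∈ Reg Ω n)
    (hg : g ∈ Reg Ω n) (h : ∀ y ∈ S, f y = g y) : ∀ x ∈ cl S, f x = g x := fun _ hx =>
  sub_eq_zero.1 (hx _ (sub_mem hf hg) fun y hy => sub_eq_zero.2 (h y hy))

lemma cl_eqM {S : Set (Matrix n n Ω)} {F G : Matrix n n Ω → Matrix n n Ω} (hF : F ∈ RM Ω n)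
    (hG : G ∈ RM Ω n) (h : ∀ y ∈ S, F y = G y) : ∀ x ∈ cl S, F x = G x := fun x hx =>
  Matrix.ext fun i j => cl_eq (hF i j) (hG i j) (fun y hy => by rw [h y hy]) x hx

/-- The ideal of functions vanishing on a set. -/
def van (S : Set (Matrix n n Ω)) : Ideal (Reg Ω n) where
  carrier := {f | ∀ y ∈ S, f.1 y = 0}
  add_mem' := fun {f g} hf hg y hy => by
    change f.1 y + g.1 y = 0
    rw [hf y hy, hg y hy, add_zero]
  zero_mem' := fun _ _ => rfl
  smul_mem' := fun c f hf y hy => by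
    change c.1 y * f.1 y = 0
    rw [hf y hy, mul_zero]

omit [Fintype n] [DecidableEq n] in
lemma mem_van {S : Set (Matrix n n Ω)} {f : Reg Ω n} : f ∈ van S ↔ ∀ y ∈ S, f.1 y = 0 := Iff.rfl

omit [DecidableEq n] in
instance : Algebra.FiniteType Ω (Reg Ω n) :=
  (Subalgebra.fg_iff_finiteType _).1 (Subalgebra.fg_def.2 ⟨_, Set.finite_range _, rfl⟩)

omit [DecidableEq n] in
instance : IsNoetherianRing (Reg Ω n) := Algebra.FiniteType.isNoetherianRing Ω _

omit [DecidableEq n] in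
/-- Nullstellensatz. -/
lemma exists_inv [IsAlgClosed Ω] {S : Set (Matrix n n Ω)} {u : Matrix n n Ω → Ω}
    (hu : u ∈ Reg Ω n) (h : ∀ x ∈ cl S, u x ≠ 0) :
    ∃ w ∈ Reg Ω n, ∀ x ∈ cl S, u x * w x = 1 := by
  by_cases ht : van S ⊔ Ideal.span {(⟨u, hu⟩ : Reg Ω n)} = ⊤
  · obtain ⟨a, ha, b, hb, e⟩ := Submodule.mem_sup.1 ((Ideal.eq_top_iff_one _).1 ht)
    obtain ⟨w, rfl⟩ := Ideal.mem_span_singleton'.1 hb
    refine ⟨w.1, w.2, fun x hx => ?_⟩
    have h1 : a.1 x + w.1 x * u x = 1 := congrArg (evA x) e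
    rw [hx _ a.2 ha, zero_add] at h1
    rw [mul_comm, h1]
  · exfalso
    obtain ⟨𝔪, hm, hle⟩ := Ideal.exists_le_maximal _ ht
    letI := Ideal.Quotient.field 𝔪
    haveI := finite_of_finite_type_of_isJacobsonRing Ω (Reg Ω n ⧸ 𝔪)
    let e : Ω ≃ₐ[Ω] (Reg Ω n ⧸ 𝔪) := AlgEquiv.ofBijective (Algebra.ofId Ω _)
      IsAlgClosed.algebraMap_bijective_of_isIntegral
    let ψ : Reg Ω n →ₐ[Ω] Ω := e.symm.toAlgHom.comp (Ideal.Quotient.mkₐ Ω 𝔪)
    let x : Matrix n n Ω := fun i j => ψ ⟨_, coord_mem i j⟩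
    have key : ∀ f (hf : f ∈ Reg Ω n), ψ ⟨f, hf⟩ = f x := by
      intro f hf
      induction hf using Algebra.adjoin_induction with
      | mem f hf =>
        obtain ⟨ij, rfl⟩ := hf
        rfl
      | algebraMap a => exact ψ.commutes a
      | add f g hf hg ihf ihg =>
        exact (map_add ψ ⟨f, hf⟩ ⟨g, hg⟩).trans (by rw [ihf, ihg])
      | mul f g hf hg ihf ihg =>
        exact (map_mul ψ ⟨f, hf⟩ ⟨g, hg⟩).trans (by rw [ihf, ihg])
    have h0 : ∀ f ∈ 𝔪, ψ f = 0 := fun f hf => by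
      change e.symm (Ideal.Quotient.mk 𝔪 f) = 0
      rw [Ideal.Quotient.eq_zero_iff_mem.2 hf, map_zero]
    refine h x (fun f hf hS => ?_) ?_
    · rw [← key f hf]
      exact h0 _ (hle (Ideal.mem_sup_left hS))
    · rw [← key u hu]
      exact h0 _ (hle (Ideal.mem_sup_right (Ideal.mem_span_singleton_self _)))

/-- Left translation of functions. -/
def tr (p : Matrix n n Ω) : Reg Ω n →ₐ[Ω] Reg Ω n where
  toFun f := ⟨fun x => f.1 (p * x), Reg_comp f.2 (RM_mul (const_mem p) id_mem)⟩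
  map_one' := rfl
  map_mul' _ _ := rfl
  map_zero' := rfl
  map_add' _ _ := rfl
  commutes' _ := rfl

@[simp] lemma tr_apply (p x : Matrix n n Ω) (f : Reg Ω n) : (tr p f).1 x = f.1 (p * x) := rfl

variable {Γ : Type} [Group Γ]

lemma prime_of_max (ρ : Γ →* Matrix n n Ω)
    (h : ∀ K : Subgroup Γ, K.FiniteIndex → van (ρ '' K) ≤ van (Set.range ρ)) :
    (van (Set.range ρ)).IsPrime := by
  letI : MulAction Γ (Ideal (Reg Ω n)) :=
    { smul := fun g P => P.comap (tr (ρ g))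
      one_smul := fun P => by
        ext f
        change tr (ρ 1) f ∈ P ↔ f ∈ P
        have : tr (ρ 1) f = f := Subtype.ext (funext fun x => by simp)
        rw [this]
      mul_smul := fun g g' P => by
        ext f
        change tr (ρ (g * g')) f ∈ P ↔ tr (ρ g') (tr (ρ g) f) ∈ P
        have : tr (ρ (g * g')) f = tr (ρ g') (tr (ρ g) f) :=
          Subtype.ext (funext fun x => by simp [mul_assoc])
        rw [this] }
  have hs : ∀ (g : Γ) (P : Ideal (Reg Ω n)) f, f ∈ g • P ↔ tr (ρ g) f ∈ P := fun _ _ _ => Iff.rfl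
  have hI : ∀ g : Γ, van (Set.range ρ) ≤ g • van (Set.range ρ) := by
    rintro g f hf _ ⟨y, rfl⟩
    exact hf _ ⟨g * y, map_mul ρ g y⟩
  have hmono : ∀ (g : Γ) (P Q : Ideal (Reg Ω n)), P ≤ Q → g • P ≤ g • Q :=
    fun g P Q hPQ f hf => hPQ hf
  have hpr : ∀ (g : Γ) (P : Ideal (Reg Ω n)), P.IsPrime → (g • P).IsPrime :=
    fun g P hP => Ideal.comap_isPrime (tr (ρ g)) P
  haveI : (RingHom.ker (evA (1 : Matrix n n Ω))).IsPrime := RingHom.ker_isPrime _
  obtain ⟨P, hP, hle⟩ := Ideal.exists_minimalPrimes_le (I := van (Set.range ρ))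
    (J := RingHom.ker (evA (1 : Matrix n n Ω))) fun f hf => hf 1 ⟨1, map_one ρ⟩
  have horb : MulAction.orbit Γ P ⊆ (van (Set.range ρ)).minimalPrimes := by
    rintro _ ⟨g, rfl⟩
    refine ⟨⟨hpr g P hP.1.1, (hI g).trans (hmono g _ _ hP.1.2)⟩, fun Q hQ hQle => ?_⟩
    have h1 := hP.2 (y := g⁻¹ • Q) ⟨hpr _ Q hQ.1, (hI _).trans (hmono _ _ _ hQ.2)⟩
      (by simpa using hmono g⁻¹ _ _ hQle)
    simpa using hmono g _ _ h1
  have hfin := (Ideal.finite_minimalPrimes_of_isNoetherianRing _ _).subset horb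
  have hK : (MulAction.stabilizer Γ P).FiniteIndex := ⟨by
    rw [MulAction.index_stabilizer]
    exact Set.ncard_ne_zero_of_mem (MulAction.mem_orbit_self P) hfin⟩
  have : P ≤ van (Set.range ρ) := by
    refine le_trans (fun f hf => ?_) (h _ hK)
    rintro _ ⟨g, hg, rfl⟩
    have h1 : f ∈ g • P := by rwa [MulAction.mem_stabilizer_iff.1 hg]
    have h2 := hle ((hs g P f).1 h1)
    simpa using h2
  rw [← le_antisymm this hP.1.2]
  exact hP.1.1

lemma exists_prime (ρ : Γ →* Matrix n n Ω) :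
    ∃ K : Subgroup Γ, K.FiniteIndex ∧ (van (Set.range (ρ.comp K.subtype))).IsPrime := by
  obtain ⟨_, ⟨K, hK, rfl⟩, hmax⟩ := set_has_maximal_iff_noetherian.2
    (inferInstance : IsNoetherian (Reg Ω n) (Reg Ω n))
    {I | ∃ K : Subgroup Γ, K.FiniteIndex ∧ I = van (ρ '' K)} ⟨_, ⊤, inferInstance, rfl⟩
  refine ⟨K, hK, prime_of_max _ fun L hL => ?_⟩
  have e1 : Set.range (ρ.comp K.subtype) = ρ '' K := by
    ext x
    simp
  have e2 : (ρ.comp K.subtype) '' L = ρ '' (L.map K.subtype) := by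
    ext x
    simp
  have hL' : (L.map K.subtype).FiniteIndex := ⟨by
    rw [Subgroup.index_map_subtype]
    exact mul_ne_zero hL.1 hK.1⟩
  rw [e1, e2]
  have h1 : van (ρ '' K) ≤ van (ρ '' (L.map K.subtype)) := fun f hf y hy =>
    hf y (Set.image_mono (Subgroup.map_subtype_le L) hy)
  exact (eq_of_le_of_not_lt h1 (hmax _ ⟨_, hL', rfl⟩)).ge

section grp

variable (ρ : Γ →* Matrix n n Ω)

lemma one_mem_cl : 1 ∈ cl (Set.range ρ) := subset_cl ⟨1, map_one ρ⟩

lemma mul_mem_cl {x y : Matrix n n Ω} (hx : x ∈ cl (Set.range ρ)) (hy : y ∈ cl (Set.range ρ)) :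
    x * y ∈ cl (Set.range ρ) := by
  refine cl_map (RM_mul id_mem (const_mem y)) ?_ x hx
  rintro _ ⟨g, rfl⟩
  refine cl_map (RM_mul (const_mem (ρ g)) id_mem) ?_ y hy
  rintro _ ⟨g', rfl⟩
  exact subset_cl ⟨g * g', map_mul ρ g g'⟩

/-- The inverse on the closure. -/
def iv (c : Matrix n n Ω) (m : ℕ) (x : Matrix n n Ω) : Matrix n n Ω := c * (x * c) ^ m

lemma iv_mem (c : Matrix n n Ω) (m : ℕ) : iv c m ∈ RM Ω n :=
  RM_mul (const_mem c) (RM_pow (RM_mul id_mem (const_mem c)) m)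

variable {ρ} {c : Matrix n n Ω} {m : ℕ} (hc : ∀ g, (ρ g * c) ^ (m + 1) = 1)
include hc

lemma pow_cl {x : Matrix n n Ω} (hx : x ∈ cl (Set.range ρ)) : (x * c) ^ (m + 1) = 1 :=
  cl_eqM (RM_pow (RM_mul id_mem (const_mem c)) _) (const_mem 1)
    (by rintro _ ⟨g, rfl⟩; exact hc g) x hx

lemma mul_iv {x : Matrix n n Ω} (hx : x ∈ cl (Set.range ρ)) : x * iv c m x = 1 := by
  rw [iv, ← mul_assoc, ← pow_succ', pow_cl hc hx]

lemma iv_mul {x : Matrix n n Ω} (hx : x ∈ cl (Set.range ρ)) : iv c m x * x = 1 :=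
  mul_eq_one_comm.1 (mul_iv hc hx)

lemma iv_rho (g : Γ) : iv c m (ρ g) = ρ g⁻¹ := by
  have h1 := iv_mul hc (subset_cl ⟨g, rfl⟩)
  calc iv c m (ρ g) = iv c m (ρ g) * ρ g * ρ g⁻¹ := by
        rw [mul_assoc, ← map_mul, mul_inv_cancel, map_one, mul_one]
    _ = ρ g⁻¹ := by rw [h1, one_mul]

lemma iv_mem_cl {x : Matrix n n Ω} (hx : x ∈ cl (Set.range ρ)) : iv c m x ∈ cl (Set.range ρ) := by
  refine cl_map (iv_mem c m) ?_ x hx
  rintro _ ⟨g, rfl⟩
  rw [iv_rho hc]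
  exact subset_cl ⟨_, rfl⟩

end grp

end Pool.Agent.Lib.MP_0c623d_al
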